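import Pool.Agent.helper62.VQ.SpecE

/-! Row NUI of project VQ, block 5 (MP_07c750_an): images of null sets are null sets. -/

set_option autoImplicit false

open scoped MatrixGroups ContDiff Topology UpperHalfPlane
open UpperHalfPlane MeasureTheory Filter Set

namespace Pool.Agent.VQE

open Pool.Agent.RS

theorem NUI_mt_cont : Continuous (mt : SL(2, ℝ) → Fin 2 → Fin 2 → ℝ) := by
  refine continuous_pi fun i => continuous_pi fun j => ?_
  exact Continuous.matrix_elem continuous_subtype_val i j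

theorem NUI_proof (h1 : NMB_stmt) (h2 : HAL_stmt) : NUI_stmt := by
  intro Ψ r C hr hΨ hL Z hZ
  set Q : Set (Fin 3 → ℝ) := Icc (fun _ => -r) (fun _ => r) with hQ
  have hQc : IsCompact Q := isCompact_Icc
  have hK : IsCompact (Ψ '' Q) := hQc.image_of_continuousOn hΨ
  obtain ⟨CH, hCH⟩ := h2 (Ψ '' Q) hK
  obtain ⟨K, hK0, hKb⟩ : ∃ K : ℝ, 0 ≤ K ∧ ∀ z ∈ Q, ∀ i j, |(Ψ z).1 i j| ≤ K := by
    have h3 : IsCompact (mt '' (Ψ '' Q)) := hK.image NUI_mt_cont
    obtain ⟨K, hK⟩ := h3.isBounded.exists_norm_le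
    refine ⟨max K 0, le_max_right _ _, fun z hz i j => ?_⟩
    have h4 := hK (mt (Ψ z)) ⟨_, ⟨z, hz, rfl⟩, rfl⟩
    calc |(Ψ z).1 i j| = ‖mt (Ψ z) i j‖ := rfl
      _ ≤ ‖mt (Ψ z) i‖ := norm_le_pi_norm _ _
      _ ≤ ‖mt (Ψ z)‖ := norm_le_pi_norm _ _
      _ ≤ K := h4
      _ ≤ max K 0 := le_max_left _ _
  have hLip : LipschitzOnWith (Real.toNNReal (2 * K * C)) (fun z => mt (Ψ z)) Q := by
    refine LipschitzOnWith.of_dist_le_mul fun z hz z' hz' => ?_
    have h5 := (h1.2.2.2.2.2.2.2.2 (Ψ z) (Ψ z') K (hKb z hz) (hKb z' hz')).1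
    calc dist (mt (Ψ z)) (mt (Ψ z')) ≤ 2 * K * nm ((Ψ z)⁻¹ * Ψ z') := h5
      _ ≤ 2 * K * (C * dist z z') := mul_le_mul_of_nonneg_left (hL z hz z' hz') (by positivity)
      _ = (2 * K * C) * dist z z' := by ring
      _ ≤ (Real.toNNReal (2 * K * C) : ℝ) * dist z z' :=
        mul_le_mul_of_nonneg_right (Real.le_coe_toNNReal _) dist_nonneg
  have hH : Measure.hausdorffMeasure 3 ((fun z => mt (Ψ z)) '' (Z ∩ Q)) = 0 := by
    have h6 := (hLip.mono (inter_subset_right (s := Z) (t := Q))).hausdorffMeasure_image_le (d := 3) (by norm_num)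
    have h7 : Measure.hausdorffMeasure 3 (Z ∩ Q) = 0 := by
      have h8 : (Measure.hausdorffMeasure ((Fintype.card (Fin 3) : ℕ) : ℝ) : Measure (Fin 3 → ℝ)) = volume :=
        hausdorffMeasure_pi_real
      have h9 : ((Fintype.card (Fin 3) : ℕ) : ℝ) = 3 := by simp
      rw [h9] at h8
      rw [h8]
      exact measure_mono_null inter_subset_left hZ
    rw [h7, mul_zero] at h6
    exact le_antisymm h6 bot_le
  obtain ⟨T, hST, hTm, hT0⟩ : ∃ T : Set (Fin 2 → Fin 2 → ℝ), mt '' (Ψ '' (Z ∩ Q)) ⊆ T ∧ MeasurableSet T ∧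
      Measure.hausdorffMeasure 3 T = 0 := by
    refine ⟨toMeasurable (Measure.hausdorffMeasure 3) (mt '' (Ψ '' (Z ∩ Q))), subset_toMeasurable _ _,
      measurableSet_toMeasurable _ _, ?_⟩
    rw [measure_toMeasurable, ← image_comp]
    exact hH
  have hAm : MeasurableSet (mt ⁻¹' T ∩ Ψ '' Q) := (NUI_mt_cont.measurable hTm).inter hK.measurableSet
  have hA := hCH (mt ⁻¹' T ∩ Ψ '' Q) hAm inter_subset_right
  have h0 : Measure.hausdorffMeasure 3 (mt '' (mt ⁻¹' T ∩ Ψ '' Q)) = 0 :=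
    measure_mono_null ((image_mono inter_subset_left).trans (image_preimage_subset _ _)) hT0
  rw [h0, mul_zero] at hA
  refine measure_mono_null ?_ (le_antisymm hA bot_le)
  intro g hg
  exact ⟨hST ⟨g, hg, rfl⟩, image_mono inter_subset_right hg⟩

end Pool.Agent.VQE
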